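import Pool.Agent.H.MP_c73f8e_nt.B

set_option autoImplicit false

namespace Pool.Agent.Results.MP_c73f8e_nt.No

def PerfectRestricted {G : Type} [AddCommGroup G] (s : ℕ) (A : Finset G) : Prop :=
  ∀ g : G, ∃! B : Finset G, B ⊆ A ∧ B.card ≤ s ∧ ∑ b ∈ B, b = g

theorem result (s : ℕ) (hs : 1 ≤ s) (G : Type) [AddCommGroup G] [Finite G]
    (hG : Nat.card G = 2 ^ (2 * s)) (A : Finset G) (hA : A.card = 2 * s + 1)
    (h : PerfectRestricted s A) :
    Nonempty (G ≃+ (Fin (2 * s) → ZMod 2)) ∨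
      Nonempty (G ≃+ (Fin (2 * s - 2) → ZMod 2) × ZMod 4) := by
  classical
  refine H.MP_c73f8e_nt.main (ι := A) Subtype.val s hs hG (by simp [hA]) ?_ ?_
  · intro X Y hX hY e
    have m : ∀ X : Finset A, X.map (Function.Embedding.subtype _) ⊆ A := by
      intro X x hx
      obtain ⟨y, -, rfl⟩ := Finset.mem_map.1 hx
      exact y.2
    obtain ⟨B, -, u⟩ := h (∑ i ∈ Y, i.1)
    have e1 := u (X.map (Function.Embedding.subtype _)) ⟨m X, by simpa using hX, by
      rw [Finset.sum_map]; exact e⟩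
    have e2 := u (Y.map (Function.Embedding.subtype _)) ⟨m Y, by simpa using hY, by
      rw [Finset.sum_map]; rfl⟩
    exact Finset.map_injective _ (e1.trans e2.symm)
  · intro g
    obtain ⟨B, ⟨b1, b2, b3⟩, -⟩ := h g
    have e := Finset.subtype_map_of_mem (p := (· ∈ A)) (s := B) (fun x hx => b1 hx)
    refine ⟨B.subtype (· ∈ A), ?_, ?_⟩
    · rw [← e, Finset.card_map] at b2; exact b2
    · rw [← e, Finset.sum_map] at b3; exact b3

end Pool.Agent.Results.MP_c73f8e_nt.No
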